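import Pool.Agent.TH215.TM.Asm
import Pool.Agent.TH182.J302

/-!
# A `ℚ`-factorial terminalization and a maximal modification algebra that are not derived
equivalent

Let `R = ℂ[x, y, z, w] / (w⁴ + x³ + y³ + z³)`, a normal Gorenstein domain of dimension three of
finite type over `ℂ` with an isolated singularity at the origin. The blow-up `Y` of the origin is
a (projective) crepant resolution of `Spec R`; in particular `Spec R` has canonical singularities
and `Y` is a `ℚ`-factorial terminalization of `Spec R`. The module `R` is a maximal modifying
`R`-module, so `R = End_R(R)` is a maximal modification algebra of `R`. There is no equivalence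
between `D^b(coh Y)` and `D^b(mod End_R(R))` which commutes with the shift.
-/

set_option autoImplicit false

open CategoryTheory Limits AlgebraicGeometry Abelian
open Pool.Agent.Helper165 Pool.Agent.TH215.TM

namespace Pool.Agent.Results.MP_9c87df_ag.NotDerivedEquivalent

/-- `R` is a normal Gorenstein domain of dimension three, of finite type over `ℂ`. Gorenstein
means that `R` has finite injective dimension over itself (here at most three). -/
structure IsNormalGorensteinThreefold (R : Type) [CommRing R] [Algebra ℂ R] : Prop where
  domain : IsDomain R
  normal : IsIntegrallyClosed R
  gorenstein : HasInjectiveDimensionLT (ModuleCat.of R R) 4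
  dim : ringKrullDim R = 3
  finiteType : Algebra.FiniteType ℂ R

/-- The conjecture that all `ℚ`-factorial terminalizations and all maximal modification algebras
of a three-dimensional normal Gorenstein domain with canonical singularities are derived
equivalent fails for `R = ℂ[x, y, z, w] / (w⁴ + x³ + y³ + z³)`, the blow-up `Y` of the origin and
the maximal modification algebra `End_R(R)`. -/
theorem result :
    IsNormalGorensteinThreefold RR ∧
    (∃ _ : IsIntegral YY, IsCrepantResolution 3 ff piX) ∧
    IsMaximalModifying RR RR ∧
    ¬ ShiftEquivalent YY (Module.End RR RR) := by
  have hR := Pool.Agent.TH480.J295.isDomain_RR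
  have hB := Pool.Agent.TH480.J295.isDomain_BB
  have hY : IsIntegral YY := Pool.Agent.TH480.J303.YY_integral
  refine ⟨?_, ⟨hY, ?_⟩, mm_RR, not_equiv_YY⟩
  · exact
      { domain := hR
        normal := Pool.Agent.TH480.J296.integrallyClosed_RR
        gorenstein := gorenstein_RR
        dim := Pool.Agent.TH480.J296.dim_RR
        finiteType := Algebra.FiniteType.trans (S := S3) inferInstance inferInstance }
  · exact
      { smooth := Pool.Agent.TH480.J303.ff_smooth Pool.Agent.TH480.J298.BB_smooth
          Pool.Agent.TH480.J297.chartW Pool.Agent.TH480.J297.chartX
        proper := Pool.Agent.TH480.J303.ff_proper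
        birational := Pool.Agent.TH480.J303.ff_birational
        crepant := Pool.Agent.TH182.TMC.crepant Pool.Agent.TH480.J297.chartW
          Pool.Agent.TH480.J297.chartX }

end Pool.Agent.Results.MP_9c87df_ag.NotDerivedEquivalent
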